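import Pool.Agent.Lib.MP_33b3f9_ag.M4.ThInj
import Pool.Agent.Lib.MP_33b3f9_ag.M4.ModHalf
import Pool.Agent.Lib.MP_33b3f9_ag.M4.KzX

/-!
Automorphisms of `ℂ` and points of the abelian variety: addition and halving.
-/

set_option autoImplicit false

namespace M4.Gal

open Complex Matrix

variable {ι : Type} [Fintype ι] {τ : Matrix ι ι ℂ} {σ : ℂ →+* ℂ}

/-- Three translates of the theta function have a common point of order two off their zeros. -/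
theorem nv3 (hτ : InH τ) (u v w : ι ⊕ ι → ℝ) : ∃ e : ι ⊕ ι → Fin 2,
    Th τ (u + hf (bz e)) ≠ 0 ∧ Th τ (v + hf (bz e)) ≠ 0 ∧ Th τ (w + hf (bz e)) ≠ 0 := by
  classical
  obtain ⟨t, ht⟩ := exists_forall_ne_zero hτ (α := Fin 4) (m := fun _ => 1) (f := fun _ => Th τ)
    (fun _ => Th_mem_Hol hτ) (fun _ => Th_ne_zero hτ)
    ![(1 / 2 : ℝ) • (u + v + w), (1 / 2 : ℝ) • (u + v - w), (1 / 2 : ℝ) • (u - v + w),
      (1 / 2 : ℝ) • (u - v - w)] ![1, -1, -1, 1] (fun i => by fin_cases i <;> simp)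
  have h := Kz.riemann hτ ((1 / 2 : ℝ) • (u + v + w) + (1 : ℝ) • t)
    ((1 / 2 : ℝ) • (u + v - w) + (-1 : ℝ) • t) ((1 / 2 : ℝ) • (u - v + w) + (-1 : ℝ) • t)
    ((1 / 2 : ℝ) • (u - v - w) + (1 : ℝ) • t)
  have h0 := h ▸ mul_ne_zero (pow_ne_zero (Fintype.card ι) (two_ne_zero (α := ℂ)))
    (mul_ne_zero (mul_ne_zero (mul_ne_zero (ht 0) (ht 1)) (ht 2)) (ht 3))
  obtain ⟨e, -, he⟩ := Finset.exists_ne_zero_of_sum_ne_zero h0
  simp only [U_apply, mul_ne_zero_iff] at he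
  refine ⟨e, ?_, ?_, ?_⟩
  · convert he.2.1.1.1.2 using 3
    module
  · convert he.2.1.1.2.2 using 3
    module
  · convert he.2.1.2.2 using 3
    module

theorem XX_nv3 (hτ : InH τ) (x : ι ⊕ ι → ℝ) (c c' : ι ⊕ ι → ℤ) :
    ∃ k, XX τ k x ≠ 0 ∧ XX τ (k + c) x ≠ 0 ∧ XX τ (k + c') x ≠ 0 := by
  obtain ⟨e, h1, h2, h3⟩ := nv3 hτ ((2 : ℝ) • x) ((2 : ℝ) • x + hf c) ((2 : ℝ) • x + hf c')
  refine ⟨bz e, ?_, ?_, ?_⟩
  · rw [XX, U_apply]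
    exact mul_ne_zero (ee_ne_zero _) h1
  · rw [XX, U_apply, add_comm (bz e), hf_add, ← add_assoc]
    exact mul_ne_zero (ee_ne_zero _) h2
  · rw [XX, U_apply, add_comm (bz e), hf_add, ← add_assoc]
    exact mul_ne_zero (ee_ne_zero _) h3

/-- Two families with proportional even quartic monomials differ by a character of order two. -/
theorem quartic {a b : (ι ⊕ ι → ℤ) → ℂ} {κ : ℂ} (hκ : κ ≠ 0)
    (ha : ∀ c c', ∃ k, a k ≠ 0 ∧ a (k + c) ≠ 0 ∧ a (k + c') ≠ 0)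
    (h : ∀ z₁ z₂ z₃ z₄ s, z₁ + z₂ + z₃ + z₄ = (2 : ℤ) • s →
      b z₁ * b z₂ * b z₃ * b z₄ = κ * (a z₁ * a z₂ * a z₃ * a z₄)) :
    ∃ (μ : ℂ) (l : ι ⊕ ι → ℤ), ∀ z, b z = μ * ee (EZ z l / 2) * a z := by
  obtain ⟨r, hr⟩ : ∃ r : (ι ⊕ ι → ℤ) → ℂ, r = fun z => b z / a z := ⟨_, rfl⟩
  have hrr : ∀ z₁ z₂ z₃ z₄ s, z₁ + z₂ + z₃ + z₄ = (2 : ℤ) • s → a z₁ ≠ 0 → a z₂ ≠ 0 → a z₃ ≠ 0 →
      a z₄ ≠ 0 → r z₁ * r z₂ * r z₃ * r z₄ = κ := fun z₁ z₂ z₃ z₄ s hs h₁ h₂ h₃ h₄ => by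
    simp only [hr]
    rw [div_mul_div_comm, div_mul_div_comm, div_mul_div_comm,
      div_eq_iff (mul_ne_zero (mul_ne_zero (mul_ne_zero h₁ h₂) h₃) h₄)]
    exact h _ _ _ _ s hs
  have h0 : ∀ z, a z ≠ 0 → r z ≠ 0 := fun z hz hb => by
    have h1 := hrr z z z z ((2 : ℤ) • z) (by module) hz hz hz hz
    rw [hb, mul_zero] at h1
    exact hκ h1.symm
  have hsq : ∀ z w, a z ≠ 0 → a w ≠ 0 → r z * r z = r w * r w := fun z w hz hw => by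
    apply mul_right_cancel₀ (mul_ne_zero (h0 z hz) (h0 z hz))
    linear_combination hrr z z z z ((2 : ℤ) • z) (by module) hz hz hz hz -
      hrr w w z z (w + z) (by module) hw hw hz hz
  choose k hk hk' _ using fun c => ha c c
  have hρ : ∀ z c, a z ≠ 0 → a (z + c) ≠ 0 → r (z + c) = r (k c + c) / r (k c) * r z :=
    fun z c hz hc => by
      have h1 := hrr z (z + c) (k c) (k c + c) (z + k c + c) (by module) hz hc (hk c) (hk' c)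
      have h2 := hrr z z (k c) (k c) (z + k c) (by module) hz hz (hk c) (hk c)
      have h3 := hsq (k c + c) (k c) (hk' c) (hk c)
      rw [div_mul_eq_mul_div, eq_div_iff (h0 _ (hk c))]
      apply mul_left_cancel₀ (mul_ne_zero (h0 z hz) (h0 _ (hk' c)))
      linear_combination h1 - h2 - r z * r z * h3
  obtain ⟨l, hl⟩ := Mo.exists_char (fun c => r (k c + c) / r (k c)) (fun c c' => by
    obtain ⟨z, h1, h2, h3⟩ := ha c (c + c')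
    apply mul_right_cancel₀ (h0 z h1)
    rw [← hρ z _ h1 h3, ← add_assoc, hρ _ c' h2 (by rwa [add_assoc]), hρ z c h1 h2]
    ring) (fun c => by
    rw [div_mul_div_comm, hsq _ _ (hk' c) (hk c), div_self (mul_ne_zero (h0 _ (hk c)) (h0 _ (hk c)))])
  refine ⟨r (k 0) * ee (EZ (-k 0) l / 2), l, fun z => ?_⟩
  by_cases hz : a z = 0
  · have h1 := h z z z z ((2 : ℤ) • z) (by module)
    simp only [hz, mul_zero, mul_eq_zero, or_self] at h1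
    rw [h1, hz, mul_zero]
  · have h1 := hρ (k 0) (-k 0 + z) (hk 0) (by rwa [add_neg_cancel_left])
    rw [add_neg_cancel_left, hl, EZ_add_left, Int.cast_add, add_div, ee_add] at h1
    rw [← div_eq_iff hz]
    exact (congrFun hr z).symm.trans (by rw [h1]; ring)

/-- `σ` maps the point `x` to the point `y`. -/
def Rl (τ : Matrix ι ι ℂ) (σ : ℂ →+* ℂ) (x y : ι ⊕ ι → ℝ) : Prop :=
  ∃ c : ℂ, ∀ k, σ (XX τ k x) = c * XX τ k y

theorem ne (hτ : InH τ) {x y : ι ⊕ ι → ℝ} {c : ℂ} (h : ∀ k, σ (XX τ k x) = c * XX τ k y) :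
    c ≠ 0 := by
  rintro rfl
  obtain ⟨e, he⟩ := XX_bpf hτ x
  exact he ((map_eq_zero σ).1 ((h _).trans (zero_mul _)))

theorem r4 (hτ : InH τ) (hI : σ I = I) {x₁ x₂ x₃ x₄ y₁ y₂ y₃ y₄ : ι ⊕ ι → ℝ} {c₁ c₂ c₃ c₄ : ℂ}
    (h₁ : ∀ k, σ (XX τ k (hs x₁ x₂ x₃ x₄)) = c₁ * XX τ k (hs y₁ y₂ y₃ y₄))
    (h₂ : ∀ k, σ (XX τ k (hs x₁ x₂ (-x₃) (-x₄))) = c₂ * XX τ k (hs y₁ y₂ (-y₃) (-y₄)))
    (h₃ : ∀ k, σ (XX τ k (hs x₁ (-x₂) x₃ (-x₄))) = c₃ * XX τ k (hs y₁ (-y₂) y₃ (-y₄)))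
    (h₄ : ∀ k, σ (XX τ k (hs x₁ (-x₂) (-x₃) x₄)) = c₄ * XX τ k (hs y₁ (-y₂) (-y₃) y₄))
    {i j k l s : ι ⊕ ι → ℤ} (h : i + j + k + l = (2 : ℤ) • s) :
    σ (XX τ i x₁) * σ (XX τ j x₂) * σ (XX τ k x₃) * σ (XX τ l x₄) =
      c₁ * c₂ * c₃ * c₄ * (XX τ i y₁ * XX τ j y₂ * XX τ k y₃ * XX τ l y₄) := by
  classical
  have e1 := congrArg σ (riemann_XX hτ h x₁ x₂ x₃ x₄)
  have e2 := riemann_XX hτ h y₁ y₂ y₃ y₄
  have e3 : ∀ a b : ι ⊕ ι → ℤ, σ (ee (E (hf a) (hf b))) = ee (E (hf a) (hf b)) := fun a b => by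
    have : ((E (hf a) (hf b) : ℝ) : ℂ) = (EZ a b : ℤ) / 4 := by
      rw [hf, hf, E_smul_left, E_smul_right, Mo.E_rz]
      push_cast
      ring
    rw [this, Kz.ee_int_div_four, map_zpow₀, hI]
  simp only [map_mul, map_sum, map_pow, map_ofNat, Kz.map_chi, e3, h₁, h₂, h₃, h₄] at e1
  apply mul_left_cancel₀ (pow_ne_zero (Fintype.card ι) (two_ne_zero (α := ℂ)))
  rw [e1, mul_left_comm, e2, Finset.mul_sum]
  exact Finset.sum_congr rfl fun e _ => by ring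

theorem add_sub (hτ : InH τ) (hI : σ I = I) (h0 : Rl τ σ 0 0) {x y x' y' : ι ⊕ ι → ℝ}
    (h : Rl τ σ x y) (h' : Rl τ σ x' y') :
    Rl τ σ (x + x') (y + y') ∧ Rl τ σ (x - x') (y - y') := by
  obtain ⟨c, hc⟩ := h0
  obtain ⟨μ, hμ⟩ := h
  obtain ⟨ν, hν⟩ := h'
  have e1 : ∀ u v : ι ⊕ ι → ℝ, hs (u + v) (u - v) 0 0 = u := fun u v => by rw [hs]; module
  have e2 : ∀ u v : ι ⊕ ι → ℝ, hs (u + v) (u - v) (-0) (-0) = u := fun u v => by rw [hs]; module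
  have e3 : ∀ u v : ι ⊕ ι → ℝ, hs (u + v) (-(u - v)) 0 (-0) = v := fun u v => by rw [hs]; module
  have e4 : ∀ u v : ι ⊕ ι → ℝ, hs (u + v) (-(u - v)) (-0) 0 = v := fun u v => by rw [hs]; module
  have key : ∀ i j, c ^ 2 * (σ (XX τ i (x + x')) * σ (XX τ j (x - x'))) =
      μ ^ 2 * ν ^ 2 * (XX τ i (y + y') * XX τ j (y - y')) := fun i j => by
    obtain ⟨k, l, s, hs, hk, hl⟩ := XX_nv hτ 0 (i + j)
    have h := r4 (x₁ := x + x') (x₂ := x - x') (x₃ := 0) (x₄ := 0) (y₁ := y + y') (y₂ := y - y')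
      (y₃ := 0) (y₄ := 0) hτ hI (by rw [e1, e1]; exact hμ) (by rw [e2, e2]; exact hμ)
      (by rw [e3, e3]; exact hν) (by rw [e4, e4]; exact hν) hs
    rw [hc, hc] at h
    apply mul_right_cancel₀ (mul_ne_zero hk hl)
    linear_combination h
  have hc2 := pow_ne_zero 2 (ne hτ hc)
  obtain ⟨i, hi⟩ := XX_bpf hτ (x + x')
  obtain ⟨j, hj⟩ := XX_bpf hτ (x - x')
  have hi' := (map_ne_zero σ).2 hi
  have hj' := (map_ne_zero σ).2 hj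
  refine ⟨⟨μ ^ 2 * ν ^ 2 * XX τ (bz j) (y - y') / (c ^ 2 * σ (XX τ (bz j) (x - x'))), fun k => ?_⟩,
    ⟨μ ^ 2 * ν ^ 2 * XX τ (bz i) (y + y') / (c ^ 2 * σ (XX τ (bz i) (x + x'))), fun k => ?_⟩⟩
  · rw [div_mul_eq_mul_div, eq_div_iff (mul_ne_zero hc2 hj')]
    linear_combination key k (bz j)
  · rw [div_mul_eq_mul_div, eq_div_iff (mul_ne_zero hc2 hi')]
    linear_combination key (bz i) k

theorem XX_add_hf (hτ : InH τ) (k l : ι ⊕ ι → ℤ) (x : ι ⊕ ι → ℝ) :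
    XX τ k (x + hf l) = chi l * ee (-(E (rz l) x)) * (ee (EZ k l / 2) * XX τ k x) := by
  have h : (2 : ℝ) • (x + hf l) + hf k = (2 : ℝ) • x + hf k + rz l := by
    rw [smul_add, two_smul_hf]; abel
  rw [Kz.XX_def, Kz.XX_def, h, Kz.Th_add_int hτ]
  have e : ee (((Kz.Ef (rz k) (x + hf l) : ℝ) : ℂ) / 2) *
      ee (-((Kz.Ef (rz l) ((2 : ℝ) • x + hf k) : ℝ) : ℂ) / 2) =
      ee (-(E (rz l) x)) * (ee (EZ k l / 2) * ee (((Kz.Ef (rz k) x : ℝ) : ℂ) / 2)) := by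
    rw [← ee_add, ← ee_add, ← ee_add]
    congr 1
    simp only [← Kz.E_eq, hf, E_add_right, E_smul_right, Mo.E_rz, EZ_comm l k]
    push_cast
    ring
  linear_combination chi l * Th τ ((2 : ℝ) • x + hf k) * e

theorem half (hτ : InH τ) (hI : σ I = I) (h0 : Rl τ σ 0 0) {x y : ι ⊕ ι → ℝ}
    (h : Rl τ σ ((2 : ℝ) • x) ((2 : ℝ) • y)) : ∃ l, Rl τ σ x (y + hf l) := by
  obtain ⟨c, hc⟩ := h0
  obtain ⟨μ, hμ⟩ := h
  have e1 : ∀ u : ι ⊕ ι → ℝ, hs u u u u = (2 : ℝ) • u := fun u => by rw [hs]; module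
  have e2 : ∀ u : ι ⊕ ι → ℝ, hs u u (-u) (-u) = 0 := fun u => by rw [hs]; module
  have e3 : ∀ u : ι ⊕ ι → ℝ, hs u (-u) u (-u) = 0 := fun u => by rw [hs]; module
  have e4 : ∀ u : ι ⊕ ι → ℝ, hs u (-u) (-u) u = 0 := fun u => by rw [hs]; module
  have hc0 := ne hτ hc
  obtain ⟨ν, l, hl⟩ := quartic (a := fun z => XX τ z y) (b := fun z => σ (XX τ z x))
    (mul_ne_zero (mul_ne_zero (mul_ne_zero (ne hτ hμ) hc0) hc0) hc0) (XX_nv3 hτ y)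
    fun z₁ z₂ z₃ z₄ s hs => r4 hτ hI (by rw [e1, e1]; exact hμ) (by rw [e2, e2]; exact hc)
      (by rw [e3, e3]; exact hc) (by rw [e4, e4]; exact hc) hs
  refine ⟨l, ν / (chi l * ee (-(E (rz l) y))), fun k => ?_⟩
  rw [hl, XX_add_hf hτ, ← mul_assoc, div_mul_cancel₀ _ (mul_ne_zero (chi_ne_zero l) (ee_ne_zero _)),
    mul_assoc]

theorem Rl.shift (hτ : InH τ) {x y : ι ⊕ ι → ℝ} (h : Rl τ σ x y) (n n' : ι ⊕ ι → ℤ) :
    Rl τ σ (x + rz n) (y + rz n') := by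
  obtain ⟨c, hc⟩ := h
  refine ⟨σ (ee (-2 * (Kz.Ef (rz n) x : ℝ))) * c / ee (-2 * (Kz.Ef (rz n') y : ℝ)), fun k => ?_⟩
  rw [Kz.XX_shift hτ, Kz.XX_shift hτ, map_mul, hc, ← mul_assoc, ← mul_assoc,
    div_mul_cancel₀ _ (ee_ne_zero _)]

theorem Rl.unique (hτ : InH τ) {x y y' : ι ⊕ ι → ℝ} (h : Rl τ σ x y) (h' : Rl τ σ x y') :
    ∃ n, y - y' = rz n := by
  obtain ⟨c, hc⟩ := h
  obtain ⟨c', hc'⟩ := h'
  refine XX_inj hτ (μ := c' / c) fun e => ?_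
  rw [div_mul_eq_mul_div, eq_div_iff (ne hτ hc), ← hc', hc, mul_comm]

theorem zsmul (hτ : InH τ) (hI : σ I = I) (h0 : Rl τ σ 0 0) {x y : ι ⊕ ι → ℝ}
    (h : Rl τ σ x y) (n : ℤ) : Rl τ σ ((n : ℝ) • x) ((n : ℝ) • y) := by
  induction n using Int.induction_on with
  | zero => rwa [Int.cast_zero, zero_smul, zero_smul]
  | succ n ih =>
    rw [Int.cast_add, add_smul, add_smul, Int.cast_one, one_smul, one_smul]
    exact (add_sub hτ hI h0 ih h).1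
  | pred n ih =>
    rw [Int.cast_sub, sub_smul, sub_smul, Int.cast_one, one_smul, one_smul]
    exact (add_sub hτ hI h0 ih h).2

/-- Points of order a power of two have an image. -/
theorem dyadic (hτ : InH τ) (hI : σ I = I) (h0 : Rl τ σ 0 0) (m : ℕ) (n : ι ⊕ ι → ℤ) :
    ∃ y, Rl τ σ ((1 / 2 : ℝ) ^ m • rz n) y := by
  induction m with
  | zero => exact ⟨0 + rz 0, by simpa using h0.shift hτ n 0⟩
  | succ m ih =>
    obtain ⟨y, hy⟩ := ih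
    obtain ⟨l, hl⟩ := half (x := (1 / 2 : ℝ) ^ (m + 1) • rz n) (y := (1 / 2 : ℝ) • y) hτ hI h0 (by
      rw [smul_smul, smul_smul, pow_succ', ← mul_assoc]
      simpa using hy)
    exact ⟨_, hl⟩

end M4.Gal
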