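import Pool.Agent.Lib.MP_33b3f9_ag.M4.P.GA
import Pool.Agent.Lib.MP_33b3f9_ag.M4.ThAll
import Pool.Agent.Lib.MP_33b3f9_ag.M4.ProjA

/-!
Automorphisms of `ℂ` map torsion points to torsion points.
-/

set_option autoImplicit false

namespace M4.Gal

open Complex Matrix MvPolynomial

variable {ι : Type} [Fintype ι] {τ : Matrix ι ι ℂ}

/-- The vector of coordinates. -/
noncomputable def Xv (τ : Matrix ι ι ℂ) (x : ι ⊕ ι → ℝ) : (ι ⊕ ι → Fin 2) → ℂ :=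
  fun e => XX τ (bz e) x

theorem eval_comp {α : Type} (σ : ℂ ≃+* ℂ) (v : α → ℂ) (P : MvPolynomial α ℂ) :
    eval (σ ∘ v) P = σ (eval v (map (σ.symm : ℂ →+* ℂ) P)) := by
  induction P using MvPolynomial.induction_on with
  | C a => simp
  | add p q hp hq => simp [hp, hq]
  | mul_X p e hp => simp [hp]

/-- Bihomogeneous identities between the coordinates of `x` and `N x` are preserved. -/
theorem transfer (hτ : InH τ) {σ : ℂ ≃+* ℂ} (hI : σ I = I) (h0 : Rl τ σ 0 0) (N : ℤ) {a b : ℕ}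
    {P₁ P₂ Q₁ Q₂ : MvPolynomial (ι ⊕ ι → Fin 2) ℂ} (hP₁ : P₁.IsHomogeneous a)
    (hP₂ : P₂.IsHomogeneous a) (hQ₁ : Q₁.IsHomogeneous b) (hQ₂ : Q₂.IsHomogeneous b)
    (h : ∀ x, eval (Xv τ ((N : ℝ) • x)) P₁ * eval (Xv τ x) Q₁ =
      eval (Xv τ ((N : ℝ) • x)) P₂ * eval (Xv τ x) Q₂) (x : ι ⊕ ι → ℝ) :
    eval (σ ∘ Xv τ ((N : ℝ) • x)) P₁ * eval (σ ∘ Xv τ x) Q₁ =
      eval (σ ∘ Xv τ ((N : ℝ) • x)) P₂ * eval (σ ∘ Xv τ x) Q₂ := by
  classical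
  have hc : Continuous (Xv τ) := continuous_pi fun e => Hol.continuous (XX_mem hτ _).1
  have hc' : Continuous fun x => Xv τ ((N : ℝ) • x) := hc.comp (continuous_const_smul _)
  simp only [eval_comp, ← map_mul, EmbeddingLike.apply_eq_iff_eq]
  refine tendsto_nhds_unique_of_eventuallyEq
    (((((continuous_eval _).comp hc').mul ((continuous_eval _).comp hc)).tendsto x).comp
      (null2_lim x))
    (((((continuous_eval _).comp hc').mul ((continuous_eval _).comp hc)).tendsto x).comp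
      (null2_lim x)) (Filter.Eventually.of_forall fun m => ?_)
  obtain ⟨y, hy⟩ := dyadic (σ := σ) hτ hI h0 m fun i => ⌊2 ^ m * x i⌋
  obtain ⟨c', hc'⟩ := zsmul hτ hI h0 hy N
  obtain ⟨c, hc⟩ := hy
  apply σ.injective
  simp only [Function.comp_apply, Pi.mul_apply, map_mul, ← eval_comp]
  rw [show σ ∘ Xv τ _ = c' • Xv τ ((N : ℝ) • y) from funext fun e => hc' _,
    show σ ∘ Xv τ _ = c • Xv τ y from funext fun e => hc _, Gr.proja_smul hP₁, Gr.proja_smul hP₂,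
    Gr.proja_smul hQ₁, Gr.proja_smul hQ₂]
  linear_combination c' ^ a * c ^ b * h y

/-- The value of a section at the conjugate point. -/
theorem exists_chi (hτ : InH τ) {σ : ℂ ≃+* ℂ} (hI : σ I = I) (h0 : Rl τ σ 0 0) (m : ℕ)
    (x₀ : ι ⊕ ι → ℝ) : ∃ χ : ((ι ⊕ ι → ℝ) → ℂ) →ₗ[ℂ] ℂ,
      ∀ P : MvPolynomial (ι ⊕ ι → Fin 2) ℂ, P.IsHomogeneous m →
        χ (fun x => eval (Xv τ x) P) = eval (σ ∘ Xv τ x₀) P := by
  let φ := (aeval fun e => XX τ (bz e)).toLinearMap.domRestrict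
    (homogeneousSubmodule (ι ⊕ ι → Fin 2) ℂ m)
  obtain ⟨s, hs⟩ := φ.rangeRestrict.exists_rightInverse_of_surjective φ.range_rangeRestrict
  obtain ⟨χ, hχ⟩ := LinearMap.exists_extend
    (((aeval (σ ∘ Xv τ x₀)).toLinearMap.domRestrict _).comp s)
  refine ⟨χ, fun P hP => ?_⟩
  have h1 := LinearMap.congr_fun hχ (φ.rangeRestrict ⟨P, hP⟩)
  have h2 := congrArg Subtype.val (LinearMap.congr_fun hs (φ.rangeRestrict ⟨P, hP⟩))
  have h3 := transfer hτ hI h0 0 (isHomogeneous_one _ _) (isHomogeneous_one _ _)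
    (s (φ.rangeRestrict ⟨P, hP⟩)).2 hP (fun x => by
      simp only [map_one, one_mul]
      exact (gen_eval _ x).symm.trans ((congrFun h2 x).trans (gen_eval P x))) x₀
  simp only [map_one, one_mul] at h3
  rw [← h3, ← coe_aeval_eq_eval]
  exact (congrArg χ (funext (gen_eval P)).symm).trans h1

theorem prod_mem {α : Type} {m : ℕ} {f : α → (ι ⊕ ι → ℝ) → ℂ} (hf : ∀ a, f a ∈ Gam τ m 0)
    (s : Finset α) : ∏ a ∈ s, f a ∈ Gam τ (m * s.card) 0 := by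
  classical
  induction s using Finset.induction_on with
  | empty => simpa using Gam.one
  | insert a s ha ih =>
    rw [Finset.prod_insert ha, Finset.card_insert_of_notMem ha, mul_add, mul_one, add_comm]
    simpa using Gam.mul (hf a) ih

theorem U_prod {α : Type} (m : ℝ) (y : ι ⊕ ι → ℝ) (f : α → (ι ⊕ ι → ℝ) → ℂ) (s : Finset α) :
    U (m * s.card) y (∏ a ∈ s, f a) = ∏ a ∈ s, U m y (f a) := by
  funext x
  simp only [U_apply, Finset.prod_apply, Finset.prod_mul_distrib, Finset.prod_const, ← ee_nat_mul]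
  congr 2
  push_cast
  ring

variable {N : ℕ} [NeZero N]

/-- Translation by a point of order `N`. -/
noncomputable def W (N : ℕ) (a : ι ⊕ ι → ℤ) : ((ι ⊕ ι → ℝ) → ℂ) →ₗ[ℂ] (ι ⊕ ι → ℝ) → ℂ :=
  Ul ((4 * N ^ 2 : ℕ) : ℝ) (Kz.rq N a)

omit [NeZero N] in
theorem W_apply (a : ι ⊕ ι → ℤ) (f : (ι ⊕ ι → ℝ) → ℂ) :
    W N a f = U ((4 * N ^ 2 : ℕ) : ℝ) (Kz.rq N a) f := rfl

theorem W_mem (hτ : InH τ) {f : (ι ⊕ ι → ℝ) → ℂ} (hf : f ∈ Gam τ (4 * N ^ 2) 0) (a : ι ⊕ ι → ℤ) :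
    W N a f ∈ Gam τ (4 * N ^ 2) 0 := by
  have h := Gam.U hτ.1 hf (Kz.rq N a)
  have hN : (N : ℝ) ≠ 0 := Nat.cast_ne_zero.2 (NeZero.ne N)
  rwa [show ((4 * N ^ 2 : ℕ) : ℝ) • Kz.rq N a = rz ((4 * N : ℤ) • a) by
    rw [Kz.rq, rz_smul, smul_smul]
    congr 1
    push_cast
    field_simp, Gam_add_rz] at h

theorem W_W (a b : ι ⊕ ι → ℤ) (f : (ι ⊕ ι → ℝ) → ℂ) : W N a (W N b f) = W N (a + b) f := by
  have hN : (N : ℂ) ≠ 0 := Nat.cast_ne_zero.2 (NeZero.ne N)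
  rw [W_apply, W_apply, W_apply, U_U, Kz.rq_add]
  convert one_smul ℂ _
  rw [← ee_int (2 * EZ b a), Kz.rq, Kz.rq, E_smul_left, E_smul_right, Mo.E_rz]
  congr 1
  push_cast
  field_simp
  ring

theorem Gam_even {m : ℕ} {f : (ι ⊕ ι → ℝ) → ℂ} : f ∈ Gam τ (4 * m) 0 ↔
    f ∈ Hol τ ((4 * m : ℕ) : ℝ) ∧ ∀ n, U ((4 * m : ℕ) : ℝ) (rz n) f = f := by
  refine and_congr_right fun _ => forall_congr' fun n => ?_
  rw [show 4 * m = 2 * (2 * m) by ring, pow_mul, chi_sq, one_pow, E_zero_left, ofReal_zero, ee_zero,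
    one_mul, one_smul]

theorem W_congr {f : (ι ⊕ ι → ℝ) → ℂ} (hf : f ∈ Gam τ (4 * N ^ 2) 0) {a b : ι ⊕ ι → ℤ}
    (h : Kz.vZ N a = Kz.vZ N b) : W N a f = W N b f := by
  obtain ⟨n, rfl⟩ := (Kz.vZ_eq_iff N a b).1 h
  rw [← W_W, W_apply _ f, Kz.rq_smul (NeZero.ne N), (Gam_even.1 hf).2]

variable [DecidableEq ι]

/-- The norm of a section under the points of order `N`. -/
theorem exists_norm (hτ : InH τ) {f : (ι ⊕ ι → ℝ) → ℂ} (hf : f ∈ Gam τ (4 * N ^ 2) 0) :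
    ∃ P : MvPolynomial (ι ⊕ ι → Fin 2) ℂ, P.IsHomogeneous (Fintype.card (ι ⊕ ι → ZMod N)) ∧
      ∀ x, ∏ a : ι ⊕ ι → ZMod N, W N (Kz.lift a) f x = eval (Xv τ ((N : ℝ) • x)) P := by
  have hN : (N : ℝ) ≠ 0 := Nat.cast_ne_zero.2 (NeZero.ne N)
  have h1 := prod_mem (fun a : ι ⊕ ι → ZMod N => W_mem hτ hf (Kz.lift a)) Finset.univ
  have e : ((4 * Fintype.card (ι ⊕ ι → ZMod N) : ℕ) : ℝ) =
      ((4 * N ^ 2 : ℕ) : ℝ) * (Finset.univ : Finset (ι ⊕ ι → ZMod N)).card * (N : ℝ)⁻¹ ^ 2 := by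
    rw [Finset.card_univ]
    push_cast
    field_simp
  obtain ⟨P, hP, h⟩ := exists_eval_XX hτ (k := Fintype.card (ι ⊕ ι → ZMod N)) Fintype.card_ne_zero
    (f := fun x => (∏ a : ι ⊕ ι → ZMod N, W N (Kz.lift a) f) ((N : ℝ)⁻¹ • x))
    (Gam_even.2 ⟨by rw [e, ← Nat.cast_mul]; exact Hol.scale h1.1 _, fun n => by
      rw [e, U_scale, U_prod]
      funext x
      refine congrFun (Fintype.prod_equiv (Equiv.addLeft (Kz.vZ N n)) _ _ fun a => ?_) _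
      refine (W_W n _ f).trans (W_congr hf ?_)
      rw [Kz.vZ_add, Kz.vZ_lift, Kz.vZ_lift, Equiv.coe_addLeft]⟩)
  refine ⟨P, hP, fun x => ?_⟩
  have h2 := h ((N : ℝ) • x)
  rwa [inv_smul_smul₀ hN, Finset.prod_apply] at h2

/-- The image of a point of order `N` is a point of order `N`. -/
theorem exists_Rl (hτ : InH τ) {σ : ℂ ≃+* ℂ} (hI : σ I = I) (h0 : Rl τ σ 0 0) (a₀ : ι ⊕ ι → ℤ) :
    ∃ b, Rl τ σ (Kz.rq N a₀) (Kz.rq N b) := by
  have hN : (N : ℝ) ≠ 0 := Nat.cast_ne_zero.2 (NeZero.ne N)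
  have hN2 : N ^ 2 ≠ 0 := pow_ne_zero _ (NeZero.ne N)
  obtain ⟨χ, hχ⟩ := exists_chi hτ hI h0 (N ^ 2) (Kz.rq N a₀)
  obtain ⟨v, hv⟩ : ∃ v, v = σ ∘ Xv τ (Kz.rq N a₀) := ⟨_, rfl⟩
  rw [← hv] at hχ
  obtain ⟨c, hc⟩ := h0.shift hτ a₀ 0
  have hw : σ ∘ Xv τ (((N : ℤ) : ℝ) • Kz.rq N a₀) = c • Xv τ ((N : ℝ) • 0) := by
    rw [Int.cast_natCast, Kz.rq, smul_inv_smul₀ hN, smul_zero]
    funext e
    simpa [Xv] using hc (bz e)
  have key : ∀ f ∈ Gam τ (4 * N ^ 2) 0, ∀ g ∈ Gam τ (4 * N ^ 2) 0,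
      (∏ a : ι ⊕ ι → ZMod N, g (Kz.rq N (Kz.lift a))) * ∏ a : ι ⊕ ι → ZMod N, χ (W N (Kz.lift a) f) =
      (∏ a : ι ⊕ ι → ZMod N, f (Kz.rq N (Kz.lift a))) *
        ∏ a : ι ⊕ ι → ZMod N, χ (W N (Kz.lift a) g) := fun f hf g hg => by
    obtain ⟨P, hP, eP⟩ := exists_norm hτ hf
    obtain ⟨Q, hQ, eQ⟩ := exists_norm hτ hg
    choose F hF eF using fun a : ι ⊕ ι → ZMod N => exists_eval_XX hτ hN2 (W_mem hτ hf (Kz.lift a))
    choose G hG eG using fun a : ι ⊕ ι → ZMod N => exists_eval_XX hτ hN2 (W_mem hτ hg (Kz.lift a))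
    have h := transfer hτ hI h0 N hQ hP (IsHomogeneous.prod Finset.univ F _ fun a _ => hF a)
      (IsHomogeneous.prod Finset.univ G _ fun a _ => hG a) (fun x => by
        rw [Int.cast_natCast, ← eP, ← eQ, map_prod, map_prod, mul_comm]
        simp only [eF, eG]
        rfl) (Kz.rq N a₀)
    rw [hw, Gr.proja_smul hP, Gr.proja_smul hQ, ← eP, ← eQ, map_prod, map_prod, ← hv] at h
    simp only [W_apply, U_at_zero, ← hχ _ (hF _), ← hχ _ (hG _)] at h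
    simp only [funext (eF _), funext (eG _)]
    apply mul_left_cancel₀ (pow_ne_zero (Fintype.card (ι ⊕ ι → ZMod N)) (ne hτ hc))
    rw [← mul_assoc, ← mul_assoc]
    exact h
  obtain ⟨e₀, he₀⟩ := XX_bpf hτ (Kz.rq N a₀)
  have hv0 : v e₀ ≠ 0 := by
    rw [hv]
    exact (map_ne_zero σ).2 he₀
  have hpow : ∀ {P : MvPolynomial (ι ⊕ ι → Fin 2) ℂ}, P.IsHomogeneous 1 →
      (P ^ N ^ 2).IsHomogeneous (N ^ 2) := fun h => by simpa using h.pow (N ^ 2)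
  obtain ⟨g, hg, hg'⟩ := Module.Dual.exists_forall_mem_ne_zero_of_forall_exists
    (Gam τ (4 * N ^ 2) 0) (fun a : ι ⊕ ι → ZMod N => χ.comp (W N (Kz.lift a))) fun a => by
      have h1 := hpow (isHomogeneous_X ℂ e₀)
      refine ⟨_, W_mem hτ (eval_XX_mem hτ h1) (-Kz.lift a), ?_⟩
      rw [LinearMap.comp_apply, W_W, add_neg_cancel, W_apply, Kz.rq_zero, U_zero]
      refine (hχ _ h1).trans_ne ?_
      rw [map_pow, eval_X]
      exact pow_ne_zero _ hv0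
  by_contra hne
  obtain ⟨f, hf, hf'⟩ := Module.Dual.exists_forall_mem_ne_zero_of_forall_exists
    (Gam τ (4 * N ^ 2) 0 ⊓ LinearMap.ker χ)
    (fun a : ι ⊕ ι → ZMod N => LinearMap.proj (Kz.rq N (Kz.lift a))) fun a => by
      obtain ⟨e₁, he₁⟩ := XX_bpf hτ (Kz.rq N (Kz.lift a))
      obtain ⟨e, he⟩ : ∃ e, v e * Xv τ (Kz.rq N (Kz.lift a)) e₁ -
          v e₁ * Xv τ (Kz.rq N (Kz.lift a)) e ≠ 0 := by
        by_contra h
        push Not at h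
        refine hne ⟨Kz.lift a, v e₁ / Xv τ (Kz.rq N (Kz.lift a)) e₁, fun k => ?_⟩
        obtain ⟨e, n, rfl⟩ := exists_bz k
        have h1 := h e
        rw [Kz.XX_add_two hτ, Kz.XX_add_two hτ, map_mul, map_mul, Kz.map_chi, map_zpow₀,
          RingHom.coe_coe, hI, mul_left_comm, div_mul_eq_mul_div]
        congr 1
        refine (eq_div_iff he₁).2 ?_
        exact (congrArg (· * _) (congrFun hv e).symm).trans (sub_eq_zero.1 h1)
      have h1 := hpow (((isHomogeneous_X ℂ e₁).C_mul (v e)).sub ((isHomogeneous_X ℂ e).C_mul (v e₁)))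
      refine ⟨_, ⟨eval_XX_mem hτ h1, (hχ _ h1).trans ?_⟩, ?_⟩
      · simp [mul_comm, NeZero.ne N]
      · simpa [Xv] using fun h => absurd h he
  have h := key f hf.1 g hg
  rw [Finset.prod_eq_zero (f := fun a => χ (W N (Kz.lift a) f)) (Finset.mem_univ 0) (by
    rw [show Kz.lift (0 : ι ⊕ ι → ZMod N) = 0 from funext fun i => by simp [Kz.lift], W_apply,
      Kz.rq_zero, U_zero]
    exact hf.2), mul_zero] at h
  exact mul_ne_zero (Finset.prod_ne_zero_iff.2 fun a _ => hf' a)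
    (Finset.prod_ne_zero_iff.2 fun a _ => hg' a) h.symm

end M4.Gal
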