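import Pool.Agent.Lib.MP_33b3f9_ag.M4.P.GB
import Pool.Agent.Lib.MP_33b3f9_ag.M4.KzFinM

/-!
Existence and uniqueness of the Galois representations on the Tate modules.
-/

set_option autoImplicit false

namespace M4.Gal

open Complex Matrix

section gen

variable {ι : Type} [Fintype ι] [DecidableEq ι] {τ : Matrix ι ι ℂ}

theorem exists_acts (hτ : InH τ) {σ : ℂ ≃+* ℂ} (hI : σ I = I) (h0 : Rl τ σ 0 0) {N : ℕ}
    (hN : N ≠ 0) : ∃ R, Kz.Acts τ σ R N := by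
  have : NeZero N := ⟨hN⟩
  choose b hb using fun j => exists_Rl (N := N) hτ hI h0 (Pi.single j 1)
  refine ⟨Matrix.of fun i j => b j i, fun a => ?_⟩
  refine Pi.single_induction (fun a => Rl τ σ (Kz.rq N a)
    (Kz.rq N ((Matrix.of fun i j => b j i) *ᵥ a))) a ?_ (fun f g hf hg => ?_) fun j m => ?_
  · rwa [mulVec_zero, Kz.rq_zero]
  · rw [mulVec_add, Kz.rq_add, Kz.rq_add]
    exact (add_sub hτ hI h0 hf hg).1
  · have e : ∀ a : ι ⊕ ι → ℤ, Kz.rq N (m • a) = (m : ℝ) • Kz.rq N a := fun a => by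
      rw [Kz.rq, Kz.rq, rz_smul, smul_comm]
    rw [show (Pi.single j m : ι ⊕ ι → ℤ) = m • Pi.single j 1 by rw [← Pi.single_smul, smul_eq_mul, mul_one],
      mulVec_smul, e, e, mulVec_single_one]
    exact zsmul hτ hI h0 (hb j) m

variable {σ σ' : ℂ →+* ℂ}

omit [DecidableEq ι] in
theorem Rl.dvd (hτ : InH τ) {x : ι ⊕ ι → ℝ} {M : ℕ} (hM : M ≠ 0) {b b' : ι ⊕ ι → ℤ}
    (h : Rl τ σ x (Kz.rq M b)) (h' : Rl τ σ x (Kz.rq M b')) (i : ι ⊕ ι) : (M : ℤ) ∣ b i - b' i := by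
  obtain ⟨n, hn⟩ := h.unique hτ h'
  have h1 := congrFun hn i
  have hM' : (M : ℝ) ≠ 0 := Nat.cast_ne_zero.2 hM
  simp only [Kz.rq, rz, Pi.sub_apply, Pi.smul_apply, smul_eq_mul] at h1
  field_simp at h1
  exact ⟨n i, by exact_mod_cast h1⟩

omit [DecidableEq ι] in
theorem Rl.congr (hτ : InH τ) {x : ι ⊕ ι → ℝ} {M : ℕ} (hM : M ≠ 0) {b b' : ι ⊕ ι → ℤ}
    (h : Rl τ σ x (Kz.rq M b)) (hb : ∀ i, (M : ℤ) ∣ b' i - b i) : Rl τ σ x (Kz.rq M b') := by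
  choose n hn using hb
  have h1 := h.shift hτ 0 n
  rwa [rz_zero, add_zero, ← Kz.rq_smul hM, ← Kz.rq_add,
    show b + (M : ℤ) • n = b' from funext fun i => by simp [← hn i]] at h1

theorem Rl.of_dvd {R : Matrix (ι ⊕ ι) (ι ⊕ ι) ℤ} {N M : ℕ} (hN : N ≠ 0) (h : Kz.Acts τ σ R N)
    (hM : M ∣ N) (j : ι ⊕ ι) : Rl τ σ (Kz.rq M (Pi.single j 1)) (Kz.rq M fun i => R i j) := by
  obtain ⟨c, rfl⟩ := hM
  have hc : c ≠ 0 := right_ne_zero_of_mul hN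
  have h1 := h ((c : ℤ) • Pi.single j 1)
  rwa [mulVec_smul, mul_comm, Kz.rq_mul hc, Kz.rq_mul hc, mulVec_single_one] at h1

variable {l : ℕ} [Fact l.Prime]

/-- `g` is the matrix of `σ` on the Tate module. -/
def Ac (τ : Matrix ι ι ℂ) (σ : ℂ →+* ℂ) (g : Matrix (ι ⊕ ι) (ι ⊕ ι) ℤ_[l]) : Prop :=
  ∀ (n : ℕ) (x y : ι ⊕ ι → ℤ), (∀ i, (l : ℤ_[l]) ^ n ∣ (g *ᵥ fun j => (x j : ℤ_[l])) i - y i) →
    Rl τ σ (Kz.rq (l ^ n) x) (Kz.rq (l ^ n) y)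

theorem exists_appr {κ : Type} (n : ℕ) (z : κ → ℤ_[l]) :
    ∃ y : κ → ℤ, ∀ i, (l : ℤ_[l]) ^ n ∣ z i - y i :=
  ⟨fun i => ((z i).appr n : ℕ), fun i => by
    simpa using Ideal.mem_span_singleton.1 (PadicInt.appr_spec n (z i))⟩

theorem exists_Ac (hτ : InH τ) {σ : ℂ ≃+* ℂ} (hI : σ I = I) (h0 : Rl τ σ 0 0) :
    ∃ g : Matrix (ι ⊕ ι) (ι ⊕ ι) ℤ_[l], Ac τ σ g := by
  have hl : ∀ n : ℕ, l ^ n ≠ 0 := fun n => pow_ne_zero _ (Fact.out : l.Prime).ne_zero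
  choose R hR using fun n => exists_acts hτ hI h0 (hl n)
  have h1 : ∀ i j n, (l : ℤ) ^ n ∣ R (n + 1) i j - R n i j := fun i j n => by
    exact_mod_cast (Rl.of_dvd (hl _) (hR (n + 1)) (pow_dvd_pow l n.le_succ) j).dvd hτ (hl n)
      (Rl.of_dvd (hl _) (hR n) dvd_rfl j) i
  refine ⟨Matrix.of fun i j => PadicInt.ofIntSeq _
    (PadicInt.isCauSeq_padicNorm_of_pow_dvd_sub (fun n => R n i j) l (h1 i j)), fun n x y h => ?_⟩
  refine Rl.congr hτ (hl n) (hR n x) fun i => ?_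
  have h2 := Ideal.mem_span_singleton.2 (h i)
  rw [← PadicInt.ker_toZModPow, RingHom.mem_ker] at h2
  simp only [mulVec, dotProduct, of_apply, map_sub, map_sum, map_mul, map_intCast,
    PadicInt.toZModPow_ofIntSeq_of_pow_dvd_sub (fun n => R n i _) l (h1 i _)] at h2
  rw [← ZMod.intCast_eq_intCast_iff_dvd_sub, ← sub_eq_zero, ← h2]
  simp [mulVec, dotProduct]

theorem Ac.dvd (hτ : InH τ) {g : Matrix (ι ⊕ ι) (ι ⊕ ι) ℤ_[l]} (h : Ac τ σ g)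
    {R : Matrix (ι ⊕ ι) (ι ⊕ ι) ℤ} {N : ℕ} (hN : N ≠ 0) (hR : Kz.Acts τ σ R N) (i j : ι ⊕ ι) :
    (N : ℤ_[l]) ∣ g i j - R i j := by
  have hp : l.Prime := Fact.out
  obtain ⟨n, m, hm, rfl⟩ := Nat.exists_eq_pow_mul_and_not_dvd hN l hp.ne_one
  obtain ⟨y, hy⟩ := exists_appr n fun i => g i j
  have h1 := (h n (Pi.single j 1) y fun i => by
    simpa [mulVec, dotProduct, Pi.single_apply] using hy i).dvd hτ (pow_ne_zero _ hp.ne_zero)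
    (Rl.of_dvd hN hR (dvd_mul_right _ _) j) i
  have hu : IsUnit (m : ℤ_[l]) := by
    rw [PadicInt.isUnit_iff, PadicInt.norm_natCast_eq_one_iff]
    exact (Nat.Prime.coprime_iff_not_dvd hp).2 hm
  rw [Nat.cast_mul, hu.mul_right_dvd, Nat.cast_pow]
  have h2 := (hy i).add (by exact_mod_cast map_dvd (Int.castRingHom ℤ_[l]) h1 :
    (l : ℤ_[l]) ^ n ∣ (y i : ℤ_[l]) - R i j)
  rwa [sub_add_sub_cancel] at h2

theorem Ac.unique (hτ : InH τ) {σ : ℂ ≃+* ℂ} (hI : σ I = I) (h0 : Rl τ σ 0 0)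
    {g g' : Matrix (ι ⊕ ι) (ι ⊕ ι) ℤ_[l]} (h : Ac τ σ g) (h' : Ac τ σ g') : g = g' := by
  ext i j : 2
  refine PadicInt.ext_of_toZModPow.1 fun n => ?_
  have hl : l ^ n ≠ 0 := pow_ne_zero _ (Fact.out : l.Prime).ne_zero
  obtain ⟨R, hR⟩ := exists_acts hτ hI h0 hl
  have h1 := (h.dvd hτ hl hR i j).sub (h'.dvd hτ hl hR i j)
  rw [sub_sub_sub_cancel_right, Nat.cast_pow] at h1
  rw [← sub_eq_zero, ← map_sub, ← RingHom.mem_ker, PadicInt.ker_toZModPow]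
  exact Ideal.mem_span_singleton.2 h1

omit [DecidableEq ι] in
theorem Ac.mul {g g' : Matrix (ι ⊕ ι) (ι ⊕ ι) ℤ_[l]} (h : Ac τ σ g) (h' : Ac τ σ' g') :
    Ac τ (σ.comp σ') (g * g') := fun n x y hxy => by
  obtain ⟨z, hz⟩ := exists_appr n (g' *ᵥ fun j => (x j : ℤ_[l]))
  obtain ⟨c', hc'⟩ := h' n x z hz
  obtain ⟨c, hc⟩ := h n z y fun i => by
    have h1 := (hxy i).sub (Finset.dvd_sum (s := Finset.univ) fun j _ => (hz j).mul_left (g i j))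
    rw [← mulVec_mulVec] at h1
    convert h1 using 1
    simp only [mul_sub, Finset.sum_sub_distrib, mulVec, dotProduct]
    ring
  exact ⟨σ c' * c, fun k => by rw [RingHom.comp_apply, hc', map_mul, hc, mul_assoc]⟩

theorem Ac.one (hτ : InH τ) : Ac τ (RingHom.id ℂ) (1 : Matrix (ι ⊕ ι) (ι ⊕ ι) ℤ_[l]) :=
  fun n x y h => Rl.congr hτ (pow_ne_zero _ (Fact.out : l.Prime).ne_zero)
    ⟨1, fun k => (one_mul _).symm⟩ fun i => by
      have h1 := h i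
      rw [one_mulVec, ← Int.cast_sub, PadicInt.pow_p_dvd_int_iff, dvd_sub_comm] at h1
      exact_mod_cast h1

end gen

theorem exists_int {q : ℚ} (h : ∀ (l : ℕ) [Fact l.Prime], ‖(q : ℚ_[l])‖ ≤ 1) : ∃ n : ℤ, q = n := by
  by_cases h1 : q.den = 1
  · exact ⟨q.num, ((Rat.den_eq_one_iff q).1 h1).symm⟩
  obtain ⟨l, hl, hd⟩ := Nat.exists_prime_and_dvd h1
  have : Fact l.Prime := ⟨hl⟩
  have h2 : ‖((q.num : ℤ) : ℚ_[l])‖ < 1 := by
    rw [show ((q.num : ℤ) : ℚ_[l]) = q * ((q.den : ℤ) : ℚ_[l]) by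
      exact_mod_cast congrArg (Rat.cast : ℚ → ℚ_[l]) (Rat.mul_den_eq_num q).symm, norm_mul]
    exact (mul_le_of_le_one_left (norm_nonneg _) (h l)).trans_lt
      (Padic.norm_intCast_lt_one_iff.2 (Int.natCast_dvd_natCast.2 hd))
  exact absurd (Nat.eq_one_of_dvd_coprimes q.reduced
    (Int.natCast_dvd.1 (Padic.norm_intCast_lt_one_iff.1 h2)) hd) hl.ne_one

variable {τ : Mat} {K : IntermediateField ℚ ℂ}

theorem fix (hτ : InH τ) (hK : DefX τ K) (σ : ℂ ≃ₐ[K] ℂ) :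
    σ.toRingEquiv I = I ∧ Rl τ σ.toRingEquiv 0 0 := by
  have hI : σ I = I := by
    have := K.toSubalgebra.pow_mem hK.1 2
    rw [Kz.ee_pow, show ((2 : ℕ) : ℂ) * (1 / 8) = 1 / 4 by norm_num, Kz.ee_quarter] at this
    exact σ.commutes ⟨_, this⟩
  obtain ⟨e, he⟩ : ∃ e, th2 τ e ≠ 0 := exists_null_ne_zero hτ
  refine ⟨hI, σ (th2 τ e) / th2 τ e, fun k => ?_⟩
  obtain ⟨e', n, rfl⟩ := exists_bz k
  have h1 : σ (th2 τ e' / th2 τ e) = th2 τ e' / th2 τ e := σ.commutes ⟨_, hK.2 e' e⟩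
  rw [map_div₀, div_eq_iff ((map_ne_zero σ).2 he)] at h1
  rw [Kz.XX_add_two hτ, map_mul, map_mul, Kz.map_chi, map_zpow₀, XX_zero, mul_left_comm]
  exact congrArg₂ (fun a b => chi n * a ^ Kz.Ef (bz e') n * b) hI (h1.trans (by rw [th2]; ring))

/-- The Galois representations exist. -/
theorem exists_rep (hτ : InH τ) (hK : DefX τ K) : ∃ r : Rep K, TateX τ K r ∧
    ∀ (l : ℕ) [Fact l.Prime] (σ : ℂ ≃ₐ[K] ℂ) (g : GL ν ℤ_[l]),
      Ac τ σ.toRingEquiv (g : Matrix ν ν ℤ_[l]) ↔ g = r l σ := by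
  choose g hg using fun (l : ℕ) (_ : Fact l.Prime) (σ : ℂ ≃ₐ[K] ℂ) =>
    exists_Ac (l := l) hτ (fix hτ hK σ).1 (fix hτ hK σ).2
  have hu := fun (l : ℕ) (_ : Fact l.Prime) (σ : ℂ ≃ₐ[K] ℂ) (x : Matrix ν ν ℤ_[l])
    (h : Ac τ σ.toRingEquiv x) => Ac.unique hτ (fix hτ hK σ).1 (fix hτ hK σ).2 h (hg l _ σ)
  refine ⟨fun l _ => MonoidHom.toHomUnits ⟨⟨g l _, (hu l _ 1 1 (Ac.one hτ)).symm⟩, fun σ σ' =>
    (hu l _ (σ * σ') _ ((hg l _ σ).mul (hg l _ σ'))).symm⟩, fun σ x y h => ?_,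
    fun l _ σ x => ⟨fun h => Units.ext (hu l _ σ _ h), fun h => by rw [h]; exact hg l _ σ⟩⟩
  obtain ⟨N, hN, a, rfl⟩ : ∃ N : ℕ, N ≠ 0 ∧ ∃ a : ν → ℤ, x = fun j => (a j : ℚ) / N := by
    choose c hc using fun j => Finset.dvd_prod_of_mem (fun j => (x j).den) (Finset.mem_univ j)
    have h0 : ∏ j, (x j).den ≠ 0 := Finset.prod_ne_zero_iff.2 fun j _ => (x j).den_nz
    refine ⟨_, h0, fun j => (x j).num * c j, funext fun j => ?_⟩
    rw [eq_div_iff (Nat.cast_ne_zero.2 h0), hc j, Nat.cast_mul, ← mul_assoc, Rat.mul_den_eq_num]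
    simp
  obtain ⟨R, hR⟩ := exists_acts hτ (fix hτ hK σ).1 (fix hτ hK σ).2 hN
  have hL : Kz.Lifts (fun l _ => g l _ σ) N R := fun l _ i j =>
    (Kz.norm_le_iff_dvd _ _).2 ((hg l _ σ).dvd hτ hN hR i j)
  choose n hn using fun i => exists_int (q := y i - ((R *ᵥ a) i : ℚ) / N) fun l _ => by
    have h1 := Padic.nonarchimedean _ _ |>.trans (max_le (hL.tate hN a l i)
      ((norm_sub_rev _ _).trans_le (h l i)))
    rw [Rat.cast_sub]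
    exact (congrArg norm (sub_add_sub_cancel' _ _ _)).symm.trans_le h1
  obtain ⟨c, hc⟩ := Rl.shift hτ (hR a) 0 n
  refine ⟨c, fun ε => ?_⟩
  refine (congrArg (fun z => σ (XX τ (bz ε) z)) (funext fun i => ?_)).trans
    ((hc (bz ε)).trans (congrArg (fun z => c * XX τ (bz ε) z) (funext fun i => ?_)))
  · simp [Kz.rq, rz, div_eq_inv_mul]
  · rw [sub_eq_iff_eq_add'.1 (hn i)]
    simp [Kz.rq, rz, div_eq_inv_mul]

end M4.Gal
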