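import Pool.Agent.Lib.MP_33b3f9_ag.M4.IDefs
import Pool.Agent.Lib.MP_33b3f9_ag.M4.MxDefs

/-!
The interfaces of the unconditional theorem.
-/

set_option autoImplicit false

noncomputable section

namespace M4

open Matrix Pool.Agent.Lib.MP_33b3f9_ag Pool.Agent.M4.Mx

/-- The endomorphism ring of the abelian variety is `ℤ`. -/
def EndX (τ : Mat) : Prop := ∀ g : MZ, zr g * cst τ = cst τ * zr g → ∃ n : ℤ, g = n • (1 : MZ)

/-- The integral form of the theorem of Faltings, with a polynomial bound. -/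
def FAL {K : IntermediateField ℚ ℂ} (r : Rep K) : Prop :=
  ∃ C : ℕ, ∀ N : ℕ, N ≠ 0 → ∀ U : Subgroup (ℂ ≃ₐ[K] ℂ), U.FiniteIndex →
    (AddSubgroup.closure {R : MZ | ∃ σ ∈ U, Cong r σ N R}).index ≤
      (U.index * (2 + Nat.log 2 N)) ^ C

/-- The tangent algebra of the closure of the image contains the symplectic Lie algebra, or it
contains a cube and the Hodge structure is not generic. -/
def DICH (τ : Mat) {K : IntermediateField ℚ ℂ} (r : Rep K) : Prop :=
  ∀ (l : ℕ) [Fact l.Prime] (U : Subgroup (ℂ ≃ₐ[K] ℂ)), U.FiniteIndex →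
    (∀ Z, Sp (Matrix.J (Fin 4) (Om l)) Z → Z ∈ tng (imU (r l) U)) ∨
    ((∃ f : Fr ν (Om l), ∀ s, f.u s (bas _ 1) ∈ tng (imU (r l) U) ∧
      f.u s (bas _ 2) ∈ tng (imU (r l) U)) ∧ ¬ GEN (cst τ))

end M4
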