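import Pool.Agent.Lib.MP_33b3f9_ag.M4.P.If
import Pool.Agent.Lib.MP_33b3f9_ag.M4.MxMain

/-!
The Mumford-Tate conjecture from the dichotomy.
-/

set_option autoImplicit false

open Matrix Function

namespace Pool.Agent.M4.Mx

open Pool.Agent.Lib.MP_33b3f9_ag

noncomputable section

/-- The determinant takes infinitely many values on a subgroup of finite index. -/
theorem det_inf' (K : IntermediateField ℚ ℂ) [FiniteDimensional ℚ K] {ℓ : ℕ} [Fact ℓ.Prime]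
    (r : (ℂ ≃ₐ[K] ℂ) →* GL ν ℤ_[ℓ])
    (hmu : ∀ σ : ℂ ≃ₐ[K] ℂ, ∃ c : ℤ_[ℓ],
      (r σ : Matrix ν ν ℤ_[ℓ])ᵀ * Matrix.J (Fin 4) ℤ_[ℓ] * (r σ : Matrix ν ν ℤ_[ℓ]) =
        c • Matrix.J (Fin 4) ℤ_[ℓ] ∧
      ∀ (n : ℕ) (ζ : ℂ), ζ ^ ℓ ^ n = 1 → σ ζ = ζ ^ (PadicInt.toZModPow n c).val)
    (U : Subgroup (ℂ ≃ₐ[K] ℂ)) [U.FiniteIndex] :
    ((fun σ => GeneralLinearGroup.det (r σ)) '' U).Infinite := by
  classical
  intro hfin
  let d := GeneralLinearGroup.det.comp r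
  have hp : ℓ.Prime := Fact.out
  have hU : (d.ker ⊓ U).FiniteIndex := by
    have : Finite (U.map d) := hfin.to_subtype
    refine ⟨?_⟩
    rw [← Subgroup.relIndex_mul_index inf_le_right, Subgroup.inf_relIndex_right,
      Subgroup.relIndex_ker]
    exact mul_ne_zero Nat.card_pos.ne' Subgroup.FiniteIndex.index_ne_zero
  have := Fintype.ofFinite ((ℂ ≃ₐ[K] ℂ) ⧸ (d.ker ⊓ U))
  obtain ⟨n, hn⟩ : ∃ n, n = Module.finrank ℚ K *
    (Fintype.card ((ℂ ≃ₐ[K] ℂ) ⧸ (d.ker ⊓ U)) * 8) := ⟨_, rfl⟩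
  have h0 : 0 < ℓ ^ (n + 1) := pow_pos hp.pos _
  have hζ := Complex.isPrimitiveRoot_exp _ h0.ne'
  generalize Complex.exp _ = ζ at hζ
  have hi : IsIntegral K ζ := (hζ.isIntegral h0).tower_top
  have h1 : ((minpoly K ζ).rootSet ℂ).toFinset ⊆
      (Finset.univ ×ˢ (Polynomial.nthRoots 8 (1 : ℤ_[ℓ])).toFinset).image
        fun q : ((ℂ ≃ₐ[K] ℂ) ⧸ (d.ker ⊓ U)) × ℤ_[ℓ] =>
          q.1.out (ζ ^ (PadicInt.toZModPow (n + 1) q.2).val) := by
    intro y hy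
    obtain ⟨σ, rfl⟩ := exists_aut K hi
      (Polynomial.aeval_eq_zero_of_mem_rootSet (Set.mem_toFinset.1 hy))
    obtain ⟨τ, hτ⟩ := QuotientGroup.mk_out_eq_mul (d.ker ⊓ U) σ
    obtain ⟨c, h1, h2⟩ := hmu (τ⁻¹ : (d.ker ⊓ U : Subgroup _)).1
    have hd : (r (τ⁻¹ : (d.ker ⊓ U : Subgroup _)).1 : Matrix ν ν ℤ_[ℓ]).det = 1 :=
      congrArg Units.val τ⁻¹.2.1
    have h3 := congrArg Matrix.det h1
    rw [det_mul, det_mul, det_transpose, hd, one_mul, mul_one, det_smul,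
      show Fintype.card ν = 8 by simp] at h3
    have h4 : c ^ 8 = 1 := mul_right_cancel₀ (Matrix.isUnit_det_J (Fin 4) ℤ_[ℓ]).ne_zero
      (h3.symm.trans (one_mul _).symm)
    refine Finset.mem_image.2 ⟨(σ, c), ?_, ?_⟩
    · simp [h4]
    · simp only [← h2 _ ζ hζ.pow_eq_one, hτ]
      simp
  have h2 : (minpoly K ζ).natDegree ≤ Fintype.card ((ℂ ≃ₐ[K] ℂ) ⧸ (d.ker ⊓ U)) * 8 := by
    rw [← Polynomial.card_rootSet_eq_natDegree (K := ℂ) (minpoly.irreducible hi).separable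
      (IsAlgClosed.splits _), ← Set.toFinset_card]
    refine (Finset.card_le_card h1).trans (Finset.card_image_le.trans ?_)
    rw [Finset.card_product, Finset.card_univ]
    exact Nat.mul_le_mul_left _ ((Multiset.toFinset_card_le _).trans (Polynomial.card_nthRoots _ _))
  have h3 := (mxcyc_deg K hi).trans (Nat.mul_le_mul_left _ h2)
  rw [← hn, ← Polynomial.cyclotomic_eq_minpoly_rat hζ h0, Polynomial.natDegree_cyclotomic,
    Nat.totient_prime_pow_succ hp] at h3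
  exact absurd ((Nat.le_mul_of_pos_right _ (Nat.sub_pos_of_lt hp.one_lt)).trans h3)
    (not_le.2 (Nat.lt_pow_self hp.one_lt))

section alg

variable {ν : Type} [Fintype ν] [DecidableEq ν] {Ω : Type} [Field Ω]

omit [Fintype ν] in
lemma scal_mcl {T : Set (Matrix ν ν Ω)} {S : Set Ω} (hS : S.Infinite)
    (h : ∀ c ∈ S, c • (1 : Matrix ν ν Ω) ∈ mcl T) (c : Ω) : c • (1 : Matrix ν ν Ω) ∈ mcl T := by
  have hγ : ∀ t : Ω, ((Polynomial.X : Polynomial Ω) • (1 : Matrix ν ν (Polynomial Ω))).map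
      (Polynomial.eval t) = t • (1 : Matrix ν ν Ω) := fun t => by
    ext i j
    by_cases h : i = j <;> simp [h]
  rw [← hγ]
  exact mcl_curve T _ S hS (fun t ht => by rw [hγ]; exact h t ht) c

lemma sim_split [IsAlgClosed Ω] [Nonempty ν] {E g : Matrix ν ν Ω} {m : Ω} (hd : E.det ≠ 0)
    (hg : g.det ≠ 0) (h : gᵀ * E * g = m • E) :
    ∃ (c : Ω) (s : Matrix ν ν Ω), sᵀ * E * s = E ∧ g = c • s := by
  obtain ⟨c, rfl⟩ := IsAlgClosed.exists_eq_mul_self m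
  have hc : c ≠ 0 := by
    rintro rfl
    have := congrArg det h
    rw [mul_zero, zero_smul, det_zero, det_mul, det_mul, det_transpose] at this
    exact mul_ne_zero (mul_ne_zero hg hd) hg this
  refine ⟨c, c⁻¹ • g, ?_, (smul_inv_smul₀ hc g).symm⟩
  rw [transpose_smul, smul_mul_assoc, smul_mul_assoc, mul_smul_comm, h, smul_smul, smul_smul]
  convert one_smul Ω E
  field_simp

/-- the closure contains all similitudes -/
theorem gsp_mcl [IsAlgClosed Ω] [CharZero Ω] [Nonempty ν] {E : Matrix ν ν Ω} (hE : Eᵀ = -E)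
    (hd : E.det ≠ 0) (T : Submonoid (Matrix ν ν Ω)) (h1 : ∀ Z, Sp E Z → Z ∈ tng T)
    (h2 : ∀ t ∈ T, t.det ≠ 0 ∧ ∃ m : Ω, tᵀ * E * t = m • E)
    (h3 : (Matrix.det '' (T : Set (Matrix ν ν Ω))).Infinite) {g : Matrix ν ν Ω} {m : Ω}
    (hg : g.det ≠ 0) (h : gᵀ * E * g = m • E) : g ∈ mcl (T : Set (Matrix ν ν Ω)) := by
  classical
  have hT : ∀ h ∈ (T : Set (Matrix ν ν Ω)), ∀ h' ∈ (T : Set (Matrix ν ν Ω)),
      h * h' ∈ (T : Set (Matrix ν ν Ω)) := fun _ h _ h' => T.mul_mem h h'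
  let M : Submonoid (Matrix ν ν Ω) :=
    { carrier := mcl T
      mul_mem' := fun ha hb => mcl_mul hT ha hb
      one_mem' := subset_mcl _ T.one_mem }
  have hsp : ∀ s : Matrix ν ν Ω, sᵀ * E * s = E → s ∈ mcl (T : Set (Matrix ν ν Ω)) :=
    fun s hs => sp_gen hE hd M (fun u c => tng_exp (h1 _ (sqm_sp hE u)) (by
      rw [sqm, vecMulVec_mul_vecMulVec, dotProduct_comm, trans_alt hE u, zero_smul,
        vecMulVec_zero]) c) hs
  have hS : {c : Ω | c • (1 : Matrix ν ν Ω) ∈ mcl (T : Set (Matrix ν ν Ω))}.Infinite := by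
    refine Set.Infinite.of_image (fun c => (c ^ Fintype.card ν) ^ 2) (Set.Infinite.mono ?_
      (fun hf => h3 (Set.Finite.of_finite_fibers (fun x : Ω => x ^ 2) hf fun y _ => ?_)))
    · rintro _ ⟨_, ⟨t, ht, rfl⟩, rfl⟩
      obtain ⟨hdt, m, hm⟩ := h2 t ht
      obtain ⟨c, s, hs, rfl⟩ := sim_split hd hdt hm
      have h4 := congrArg det hs
      rw [det_mul, det_mul, det_transpose] at h4
      have h5 : s.det ^ 2 = 1 := mul_right_cancel₀ hd (by linear_combination h4)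
      have h6 : IsUnit s.det := IsUnit.of_pow_eq_one h5 two_ne_zero
      refine ⟨c, ?_, ?_⟩
      · have h7 := mcl_mul hT (subset_mcl _ ht) (hsp s⁻¹ (by
          conv_lhs => rw [← hs]
          rw [← mul_assoc, ← mul_assoc, ← transpose_mul, mul_assoc, mul_nonsing_inv _ h6,
            transpose_one, one_mul, mul_one]))
        rwa [smul_mul_assoc, mul_nonsing_inv _ h6] at h7
      · simp only [det_smul, mul_pow, h5, mul_one]
    · refine ((Polynomial.nthRoots 2 y).toFinset.finite_toSet.subset fun x hx => ?_).inter_of_right _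
      simpa using hx
  obtain ⟨c, s, hs, rfl⟩ := sim_split hd hg h
  have h7 := mcl_mul hT (scal_mcl hS (fun _ h => h) c) (hsp s hs)
  rwa [smul_mul_assoc, one_mul] at h7

variable [Algebra ℚ Ω]

lemma scal_mt (I : Matrix ν ν ℝ) {c : Ω} (hc : c ≠ 0) : c • (1 : Matrix ν ν Ω) ∈ mtMon Ω I := by
  have hd : ∀ c : Ω, c ≠ 0 → (c • (1 : Matrix ν ν Ω)).det ≠ 0 := fun c hc => by
    rw [det_smul, det_one, mul_one]
    exact pow_ne_zero _ hc
  refine mt_closed (scal_mcl ((inf_rat (Ω := Ω)).sdiff (Set.finite_singleton 0)) ?_ c) (hd c hc)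
  rintro _ ⟨⟨q, rfl⟩, hq⟩
  refine subset_mcl _ ⟨hd _ hq, ?_⟩
  rintro P ⟨S, ⟨-, hS⟩, hP⟩
  have e : ∀ {B : Type} [Field B] [Algebra ℚ B], algebraMap ℚ B q • (1 : Matrix ν ν B) =
      (q • (1 : Matrix ν ν ℚ)).map (algebraMap ℚ B) := fun {B} _ _ => by
    ext i j
    by_cases h : i = j <;> simp [h]
  have h1 := hS (algebraMap ℚ ℝ q) 0 (fun h => hq (by
    have h2 : q = 0 := (map_eq_zero _).1 (congrArg Prod.fst h)
    rw [h2, map_zero]
    rfl)) P hP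
  rw [zero_smul, add_zero, e, evalM_map, map_eq_zero] at h1
  rw [e, evalM_map, h1, map_zero]

end alg

/-- The closure of the image is the Mumford-Tate group. -/
theorem last {τ : Matrix (Fin 4) (Fin 4) ℂ} (K : IntermediateField ℚ ℂ) [FiniteDimensional ℚ K]
    {ℓ : ℕ} [Fact ℓ.Prime] (r : (ℂ ≃ₐ[K] ℂ) →* GL ν ℤ_[ℓ]) {I : Matrix ν ν ℝ} (hτ : Siegel τ)
    (hI : ∀ x, per τ (I *ᵥ x) = Complex.I • per τ x)
    (hmu : ∀ σ : ℂ ≃ₐ[K] ℂ, ∃ c : ℤ_[ℓ],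
      (r σ : Matrix ν ν ℤ_[ℓ])ᵀ * Matrix.J (Fin 4) ℤ_[ℓ] * (r σ : Matrix ν ν ℤ_[ℓ]) =
        c • Matrix.J (Fin 4) ℤ_[ℓ] ∧
      ∀ (n : ℕ) (ζ : ℂ), ζ ^ ℓ ^ n = 1 → σ ζ = ζ ^ (PadicInt.toZModPow n c).val)
    (U : Subgroup (ℂ ≃ₐ[K] ℂ)) [U.FiniteIndex]
    (hD : (∀ Z, Sp (Matrix.J (Fin 4) (Om ℓ)) Z → Z ∈ tng (imU r U)) ∨
      ((∃ f : Fr ν (Om ℓ), ∀ s, f.u s (bas _ 1) ∈ tng (imU r U) ∧
        f.u s (bas _ 2) ∈ tng (imU r U)) ∧ ¬ GEN (Matrix.J (Fin 4) ℚ) I))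
    (hsub : (fun σ => toQ (r σ)) '' U ⊆ zeroSet ℚ_[ℓ] (mtEqns I)) :
    zcl (Om ℓ) ((fun σ => toQ (r σ)) '' U) = zeroSet (Om ℓ) (mtEqns I) := by
  obtain ⟨hII, hIJ⟩ := cst_props hτ hI
  have hd : (Matrix.J (Fin 4) ℚ).det ≠ 0 := (Matrix.isUnit_det_J (Fin 4) ℚ).ne_zero
  have hinj : Injective (toOm ℓ) :=
    (algebraMap ℚ_[ℓ] (Om ℓ)).injective.comp Subtype.val_injective
  have hdet : ∀ σ, ((r σ : Matrix ν ν ℤ_[ℓ]).map (toOm ℓ)).det =
      toOm ℓ (GeneralLinearGroup.det (r σ) : ℤ_[ℓ]ˣ) := fun σ => ((toOm ℓ).map_det _).symm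
  have hle : imU r U ≤ mtMon (Om ℓ) I := by
    rintro _ ⟨σ, hσ, rfl⟩
    refine ⟨by rw [hdet]; exact (map_ne_zero_iff _ hinj).2 (Units.ne_zero _), fun P hP => ?_⟩
    exact (evalM_map (algebraMap ℚ_[ℓ] (Om ℓ)) (toQ (r σ) : Matrix ν ν ℚ_[ℓ]) P).trans
      (by rw [hsub ⟨σ, hσ, rfl⟩ P hP, map_zero])
  have h3 : (Matrix.det '' (imU r U : Set (Matrix ν ν (Om ℓ)))).Infinite := by
    refine Set.Infinite.mono ?_ ((det_inf' K r hmu U).image
      (f := fun u : ℤ_[ℓ]ˣ => toOm ℓ u) (hinj.comp Units.val_injective).injOn)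
    rintro _ ⟨_, ⟨σ, hσ, rfl⟩, rfl⟩
    exact ⟨_, ⟨σ, hσ, rfl⟩, hdet σ⟩
  refine Set.Subset.antisymm (MT_sub _ _ hsub) fun g hg => mcl_zcl r U ?_
  rcases hD with h | ⟨⟨f, hf⟩, hG⟩
  · have hJ0 : Matrix.J (Fin 4) ℚ ≠ 0 := fun h => hd (by rw [h, det_zero])
    have hsim : ∀ t : Matrix ν ν (Om ℓ), (∀ P ∈ mtEqns I, evalM t P = 0) →
        ∃ m : Om ℓ, tᵀ * Matrix.J (Fin 4) (Om ℓ) * t = m • Matrix.J (Fin 4) (Om ℓ) := fun t ht => by
      rw [← Matrix.map_J (Fin 4) (algebraMap ℚ (Om ℓ))]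
      exact (simEqns_iff hJ0 t).1 fun P hP => ht P (simEqns_subset hII hJ0 hIJ hP)
    obtain ⟨m, hm⟩ := hsim g hg
    exact gsp_mcl (Matrix.J_transpose _ _) (Matrix.isUnit_det_J _ _).ne_zero _ h
      (fun t ht => ⟨(hle ht).1, hsim t (hle ht).2⟩) h3 g.det_ne_zero hm
  · have hm : ∀ {t : Matrix ν ν (Om ℓ)}, (∀ P ∈ mtEqns I, evalM t P = 0) → ∃ a, t = f.T a :=
      m2 f hII (Matrix.J_transpose _ _) hd hIJ hG fun a ha => by
        obtain ⟨c, a', ha', e⟩ := f.T_split a ha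
        have hc : c ≠ 0 := by
          rintro rfl
          rw [e, zero_smul, det_zero] at ha
          exact ha rfl
        have h1 : f.T a' ∈ mtMon (Om ℓ) I := by
          refine mt_closed (f.sl_mcl _ (fun s => ⟨tng_mono hle (hf s).1, tng_mono hle (hf s).2⟩)
            a' ha') fun h0 => ha ?_
          rw [e, det_smul, h0, mul_zero]
        have h2 := (mtMon (Om ℓ) I).mul_mem (scal_mt I hc) h1
        rw [smul_mul_assoc, one_mul, ← e] at h2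
        exact h2.2
    obtain ⟨a, ha⟩ := hm hg
    rw [ha]
    exact f.cube_mcl _ hf (fun t ht => ⟨(hle ht).1, hm (hle ht).2⟩) h3 a (ha ▸ g.det_ne_zero)

end

end Pool.Agent.M4.Mx
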