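import Pool.Agent.Lib.MP_33b3f9_ag.M4.P.Stmt
import Pool.Agent.Lib.MP_33b3f9_ag.M4.P.GC
import Pool.Agent.Lib.MP_33b3f9_ag.M4.P.Last
import Pool.Agent.Lib.MP_33b3f9_ag.M4.IBridge

/-!
The statement from the dichotomy.
-/

set_option autoImplicit false

namespace M4.Bridge

open Matrix Complex Pool.Agent.Lib.MP_33b3f9_ag

variable {τ : Mat} {K : IntermediateField ℚ ℂ}

theorem defX (hτ : InH τ) (h : Pool.Agent.M4.DefinedOver τ K) : DefX τ K := by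
  have h8 : ee (1 / 8) ∈ K := by
    have e : ee (1 / 8) = Complex.exp (Real.pi * Complex.I / 4) := by
      unfold ee
      congr 1
      ring
    rw [e]
    exact h.1
  refine ⟨h8, fun ε ε' => ?_⟩
  rw [th2_coord hτ, th2_coord hτ, mul_div_mul_comm]
  exact K.mul_mem (K.div_mem (ph_mem h8 ε) (ph_mem h8 ε')) (h.2 ε ε')

theorem rl_iff (hτ : InH τ) (hK : DefX τ K) (σ : ℂ ≃ₐ[K] ℂ) (x y : ν → ℚ) :
    (∃ c : ℂ, ∀ ε, σ (Pool.Agent.M4.coord τ x ε) = c * Pool.Agent.M4.coord τ y ε) ↔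
      Gal.Rl τ σ.toRingEquiv (fun i => (x i : ℝ)) fun i => (y i : ℝ) := by
  have hp : ∀ ε, σ (ph ε) = ph ε := fun ε => σ.commutes ⟨ph ε, ph_mem hK.1 ε⟩
  have hx := (map_ne_zero σ).2 (ee_ne_zero (2 * (fa (fun i => (x i : ℝ)) ⬝ᵥ per τ fun i => (x i : ℝ))))
  have hy := ee_ne_zero (2 * (fa (fun i => (y i : ℝ)) ⬝ᵥ per τ fun i => (y i : ℝ)))
  refine ⟨fun ⟨c, hc⟩ => ⟨σ (ee (2 * (fa (fun i => (x i : ℝ)) ⬝ᵥ per τ fun i => (x i : ℝ)))) * c /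
      ee (2 * (fa (fun i => (y i : ℝ)) ⬝ᵥ per τ fun i => (y i : ℝ))), fun k => ?_⟩,
    fun ⟨c, hc⟩ => ⟨c * ee (2 * (fa (fun i => (y i : ℝ)) ⬝ᵥ per τ fun i => (y i : ℝ))) /
      σ (ee (2 * (fa (fun i => (x i : ℝ)) ⬝ᵥ per τ fun i => (x i : ℝ)))), fun ε => ?_⟩⟩
  · obtain ⟨e, n, rfl⟩ := exists_bz k
    rw [Kz.XX_add_two hτ, Kz.XX_add_two hτ, map_mul, map_mul, Kz.map_chi, map_zpow₀,
      mul_left_comm]
    refine congrArg₂ (fun a b => chi n * a ^ Kz.Ef (bz e) n * b) (Gal.fix hτ hK σ).1 ?_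
    change σ _ = _
    rw [XX_coord hτ, XX_coord hτ, map_mul, map_mul, hc, hp]
    field_simp
  · have h : σ _ = _ := hc (bz ε)
    rw [XX_coord hτ, XX_coord hτ, map_mul, map_mul, hp] at h
    apply mul_left_cancel₀ (mul_ne_zero hx (ph_ne ε))
    rw [h]
    field_simp

theorem acts_iff (hτ : InH τ) (hK : DefX τ K) (σ : ℂ ≃ₐ[K] ℂ) {l : ℕ} [Fact l.Prime]
    (g : GL ν ℤ_[l]) :
    Pool.Agent.M4.Acts τ σ g ↔ Gal.Ac τ σ.toRingEquiv (g : Matrix ν ν ℤ_[l]) := by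
  have e : ∀ (n : ℕ) (b : ν → ℤ), (fun i => (((b i : ℚ) / (l : ℚ) ^ n : ℚ) : ℝ)) = Kz.rq (l ^ n) b :=
    fun n b => by funext i; simp [Kz.rq, rz, div_eq_inv_mul]
  refine forall₃_congr fun n x y => imp_congr_right fun _ => ?_
  rw [rl_iff hτ hK, e, e]

/-- The conjecture for `τ` from the dichotomy for its Galois representations. -/
theorem main [FiniteDimensional ℚ K] {I' : Matrix ν ν ℝ} (hτ : Pool.Agent.M4.Siegel τ)
    (hK : Pool.Agent.M4.DefinedOver τ K)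
    (hI : ∀ x, Pool.Agent.M4.per τ (I' *ᵥ x) = Complex.I • Pool.Agent.M4.per τ x)
    (hE : Pool.Agent.M4.EndZ I') (hD : ∀ r : Rep K, AV τ K r → EndX τ → DICH τ r)
    (l : ℕ) [Fact l.Prime] (U : Subgroup (ℂ ≃ₐ[K] ℂ)) (hU : U.FiniteIndex)
    (h : Pool.Agent.M4.galImage τ l U ⊆ zeroSet ℚ_[l] (mtEqns I')) :
    zcl (AlgebraicClosure ℚ_[l]) (Pool.Agent.M4.galImage τ l U) =
      zeroSet (AlgebraicClosure ℚ_[l]) (mtEqns I') := by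
  have hK' := defX hτ hK
  obtain ⟨r, hr, hu⟩ := Gal.exists_rep hτ hK'
  have hA : AV τ K r := ⟨hτ, inferInstance, hK', hr⟩
  have e : Pool.Agent.M4.galImage τ l U = (fun σ => Pool.Agent.M4.toQ (r l σ)) '' U := by
    ext g
    simp only [Pool.Agent.M4.galImage, acts_iff hτ hK', hu]
    exact ⟨fun ⟨_, ⟨σ, hσ, e⟩, e'⟩ => ⟨σ, hσ, (congrArg _ e).symm.trans e'⟩, fun ⟨σ, hσ, e⟩ => ⟨_, ⟨σ, hσ, rfl⟩, e⟩⟩
  obtain rfl := eq_cst hτ hI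
  rw [e] at h ⊢
  exact Pool.Agent.M4.Mx.last K (r l) hτ hI (Kz.mu hA l) U (hD r hA hE l U hU) h

end M4.Bridge
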