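import Pool.Agent.Lib.MP_33b3f9_ag.M4.Stmt

open Matrix

namespace Pool.Agent.M4

noncomputable section

/-- `End A = ℤ`: every integral matrix that commutes with the complex structure `I` is a scalar. -/
def EndZ (I : Matrix ν ν ℝ) : Prop :=
  ∀ g : Matrix ν ν ℤ, g.map (Int.cast : ℤ → ℝ) * I = I * g.map (Int.cast : ℤ → ℝ) →
    ∃ n : ℤ, g = n • (1 : Matrix ν ν ℤ)

/-- `g` is the matrix of `σ` on the `ℓ`-adic Tate module in the lattice basis: `σ` maps the torsion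
point `x / ℓ ^ n` to the torsion point `y / ℓ ^ n` when `y = g x` modulo `ℓ ^ n`. -/
def Acts (τ : Matrix (Fin 4) (Fin 4) ℂ) (σ : ℂ → ℂ) {ℓ : ℕ} [Fact ℓ.Prime] (g : GL ν ℤ_[ℓ]) :
    Prop :=
  ∀ (n : ℕ) (x y : ν → ℤ),
    (∀ i, (ℓ : ℤ_[ℓ]) ^ n ∣ ((g : Matrix ν ν ℤ_[ℓ]) *ᵥ fun j => (x j : ℤ_[ℓ])) i - (y i : ℤ_[ℓ])) →
    ∃ c : ℂ, ∀ ε, σ (coord τ (fun i => (x i : ℚ) / (ℓ : ℚ) ^ n) ε) =
      c * coord τ (fun i => (y i : ℚ) / (ℓ : ℚ) ^ n) ε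

/-- The image of the group `U` of automorphisms of `ℂ` in `GL_8(ℚ_ℓ)`. -/
def galImage (τ : Matrix (Fin 4) (Fin 4) ℂ) {K : IntermediateField ℚ ℂ} (ℓ : ℕ) [Fact ℓ.Prime]
    (U : Subgroup (ℂ ≃ₐ[K] ℂ)) : Set (GL ν ℚ_[ℓ]) :=
  toQ '' {g : GL ν ℤ_[ℓ] | ∃ σ ∈ U, Acts τ σ g}

end

end Pool.Agent.M4
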